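import Pool.Agent.H33.FCE1

set_option autoImplicit false

open Set Filter Topology Pool.Agent.H33 Pool.Agent.H33.DiaDefs

namespace Pool.Agent.Results.MP_058773_gt.DiamondCex

/-- every continuous real function has countable range -/
def FunctionallyCountable (X : Type) [TopologicalSpace X] : Prop :=
  ∀ f : X → ℝ, Continuous f → (range f).Countable

/-- every countable family of closed sets has a countable strongly dense set -/
def ExponentiallySeparable (X : Type) [TopologicalSpace X] : Prop :=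
  ∀ 𝓕 : Set (Set X), 𝓕.Countable → (∀ F ∈ 𝓕, IsClosed F) →
    ∃ A : Set X, A.Countable ∧ ∀ 𝓖 ⊆ 𝓕, (⋂₀ 𝓖).Nonempty → (A ∩ ⋂₀ 𝓖).Nonempty

theorem result (hD : Diamond) : ∃ (X : Type) (_ : TopologicalSpace X), T2Space X ∧ NormalSpace X ∧
    FunctionallyCountable X ∧ ¬ ExponentiallySeparable X := by
  have := unc
  obtain ⟨S, g, h0, h1, h2, h3, h4⟩ := FCE1.data hD
  obtain ⟨ic, rg⟩ := FCE1.reg h1 h2
  let := FCE1.top S
  have me : ∀ B C : Set W, IsClosed B → IsClosed C → Disjoint B C → B.Countable ∨ C.Countable :=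
    fun B C hB hC d => not_and_or.1 (fun ⟨a, b⟩ => by
      obtain ⟨t, t1, t2⟩ := h4 B C a b
      exact disjoint_left.1 d (not_not.1 fun e => t1 (by simpa using hB.isOpen_compl t e))
        (not_not.1 fun e => t2 (by simpa using hC.isOpen_compl t e))) |>.imp not_not.1 not_not.1
  have cov : ∀ (s t : Set W) (c : Set (Set W)), c.Countable → (∀ V ∈ c, IsClopen V ∧ Disjoint V t) →
      s ⊆ ⋃₀ c → HasSeparatingCover s t := fun s t c a b d => by
    obtain ⟨u, hu⟩ := (a.insert ∅).exists_eq_range (insert_nonempty _ _)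
    refine ⟨u, d.trans ((sUnion_mono (subset_insert _ _)).trans (by rw [hu, sUnion_range])),
      fun n => ?_⟩
    rcases hu.ge ⟨n, rfl⟩ with e | e
    · simp [e]
    · exact ⟨(b _ e).1.2, (b _ e).1.1.closure_eq.symm ▸ (b _ e).2⟩
  have sep : ∀ H K : Set W, IsClosed H → IsClosed K → Disjoint H K → H.Countable →
      SeparatedNhds H K := fun H K hH hK d c => by
    obtain ⟨β, hβ⟩ := DT1.bd cnt H c
    choose! V v1 v2 _ v4 using fun x (a : x ∈ H) => rg x K hK (disjoint_left.1 d a)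
    choose! U u1 u2 _ u4 using fun x (a : x ∈ K) => rg x H hH (disjoint_right.1 d a)
    refine hasSeparatingCovers_iff_separatedNhds.1 ⟨cov _ _ (V '' H) (c.image V)
      (forall_mem_image.2 fun x a => ⟨v1 x a, v4 x a⟩) fun x a => ⟨_, ⟨x, a, rfl⟩, v2 x a⟩,
      cov _ _ (insert (Iic β)ᶜ (U '' (K ∩ Iio β ∪ K ∩ {β}))) ((((((cnt β).mono inter_subset_right).union
        ((countable_singleton β).mono inter_subset_right))).image U).insert _) (forall_mem_insert.2
          ⟨⟨(ic β).compl, disjoint_left.2 fun x a b => a (hβ x b).le⟩, forall_mem_image.2 fun x a =>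
            ⟨u1 x (a.elim And.left And.left), u4 x (a.elim And.left And.left)⟩⟩) fun x a => ?_⟩
    rcases lt_trichotomy x β with e | e | e
    · exact ⟨_, Or.inr ⟨x, Or.inl ⟨a, e⟩, rfl⟩, u2 x a⟩
    · exact ⟨_, Or.inr ⟨x, Or.inr ⟨a, e⟩, rfl⟩, u2 x a⟩
    · exact ⟨_, Or.inl rfl, not_le.2 e⟩
  refine ⟨W, this, ⟨fun a b c => ?_⟩, ⟨fun H K hH hK d => (me H K hH hK d).elim (sep H K hH hK d)
    fun c => (sep K H hK hH d.symm c).symm⟩, fun f hf => ?_, fun h => ?_⟩
  · rcases lt_or_gt_of_ne c with e | e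
    · exact ⟨Iic a, (Iic a)ᶜ, (ic a).2, (ic a).compl.2, self_mem_Iic, not_le.2 e,
        disjoint_compl_right⟩
    · exact ⟨(Iic b)ᶜ, Iic b, (ic b).compl.2, (ic b).2, not_le.2 e, self_mem_Iic,
        disjoint_compl_left⟩
  · let T : Set ℝ := {r | ∀ N ∈ 𝓝 r, ¬ (f ⁻¹' N).Countable}
    have hT : T.Subsingleton := fun a ha b hb => not_not.1 fun c => by
      obtain ⟨U₁, -, V₁, a1, U₂, -, V₂, a2, a3, a4, -, -, a5, a6, a7⟩ := disjoint_nested_nhds c
      exact (me _ _ (a3.preimage hf) (a4.preimage hf) ((a7.mono a5 a6).preimage f)).elim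
        (ha _ a1) (hb _ a2)
    have : ∀ r ∈ Tᶜ, ∃ N ∈ 𝓝 r, (f ⁻¹' N).Countable := fun r a => by simpa [T] using a
    choose! N n1 n2 using this
    obtain ⟨t, t1, t2, t3⟩ := TopologicalSpace.countable_cover_nhdsWithin
      fun r a => mem_nhdsWithin_of_mem_nhds (n1 r a)
    refine (hT.countable.union ((t2.biUnion fun r a => n2 r (t1 a)).image f)).mono ?_
    rintro _ ⟨x, rfl⟩
    refine (em _).imp_right fun a => ?_
    obtain ⟨r, r1, r2⟩ := mem_iUnion₂.1 (t3 a)
    exact ⟨x, mem_biUnion r1 r2, rfl⟩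
  · obtain ⟨A, a1, a2⟩ := h (range fun p : ℕ × ℕ => {α | p.2 ≤ g α p.1}) (countable_range _)
      (forall_mem_range.2 fun p => isOpen_compl_iff.1 fun α a => (h3 α p.1).subset fun β b =>
        ⟨b.1, (not_le.1 (show ¬ p.2 ≤ g α p.1 from a)).trans_le
          (show p.2 ≤ g β p.1 from not_not.1 b.2)⟩)
    obtain ⟨β, hβ⟩ := DT1.bd cnt A a1
    obtain ⟨α, b1, b2⟩ := a2 (range fun i => {α | g β i ≤ g α i})
      (range_subset_iff.2 fun i => ⟨(i, g β i), rfl⟩) ⟨β, forall_mem_range.2 fun i => le_refl (g β i)⟩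
    obtain ⟨i, hi⟩ := h0 β α (hβ α b1)
    exact not_le.2 hi (b2 _ ⟨i, rfl⟩)

end Pool.Agent.Results.MP_058773_gt.DiamondCex
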